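import Pool.Agent.L7h71.GB.Stm

set_option autoImplicit false

/-! Project GB, part FIX: fixing finitely many blocks. -/

namespace Pool.Agent.L7h42.GB

open Set Function
open Pool.Agent.L7h71.GB
open Pool.Agent.L7h66.UA (XS XIso XYo XDich)

/-- An injective map on a finite set of natural numbers extends to a permutation. -/
theorem perm_ext (Q : Finset ℕ) (f : ℕ → ℕ) (hf : InjOn f Q) :
    ∃ π : Equiv.Perm ℕ, ∀ q ∈ Q, π q = f q := by
  classical
  have hbij : Function.Bijective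
      (fun q : {x // x ∈ Q} => (⟨f q, Finset.mem_image_of_mem f q.2⟩ : {x // x ∈ Q.image f})) := by
    constructor
    · intro x y hxy
      have := congrArg Subtype.val hxy
      exact Subtype.ext (hf x.2 y.2 this)
    · rintro ⟨y, hy⟩
      obtain ⟨x, hx, rfl⟩ := Finset.mem_image.1 hy
      exact ⟨⟨x, hx⟩, rfl⟩
  let e₁ := Equiv.ofBijective _ hbij
  have : Infinite {x // x ∉ Q} := (Q.finite_toSet.infinite_compl).to_subtype
  have : Infinite {x // x ∉ Q.image f} := ((Q.image f).finite_toSet.infinite_compl).to_subtype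
  obtain ⟨e₂⟩ := nonempty_equiv_of_countable (α := {x // x ∉ Q}) (β := {x // x ∉ Q.image f})
  refine ⟨e₁.subtypeCongr e₂, fun q hq => ?_⟩
  have h1 : (e₁.subtypeCongr e₂) q = e₁ ⟨q, hq⟩ := by
    simp [Equiv.subtypeCongr, Equiv.sumCompl_symm_apply_of_pos hq]
  rw [h1]
  rfl

theorem s_FIX : S_FIX := by
  classical
  intro a K M N c l I b hb hcov hh
  choose h hemb hperm using hh
  obtain ⟨T, hT⟩ : ∃ T, ∀ i ∈ I, i ≤ T := ⟨I.sup id, fun i hi => Finset.le_sup (f := id) hi⟩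
  set Q : Finset ℕ := I.biUnion fun i => (c i).toFinset with hQ
  set R : Finset ℕ := I.biUnion fun i => (b i).toFinset with hR
  have memQ : ∀ q, q ∈ Q ↔ ∃ i ∈ I, q ∈ c i := by simp [hQ]
  have memR : ∀ q, q ∈ R ↔ ∃ i ∈ I, q ∈ b i := by simp [hR]
  have maps : ∀ t, T ≤ t → ∀ q ∈ Q, h t q ∈ R := by
    intro t ht q hq
    obtain ⟨i, hi, hqi⟩ := (memQ q).1 hq
    refine (memR _).2 ⟨i, hi, ?_⟩
    have := hperm t i ((hT i hi).trans ht)
    rw [hb i hi t] at this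
    exact this.mem_iff.1 (List.mem_map_of_mem hqi)
  let g : ℕ → (↥Q → ↥R) := fun n q => ⟨h (T + n) q, maps _ (Nat.le_add_right _ _) q q.2⟩
  obtain ⟨θ, hθ⟩ := Finite.exists_infinite_fiber g
  have hinf : ∀ t, ∃ t', t ≤ t' ∧ T ≤ t' ∧ ∀ q (hq : q ∈ Q), h t' q = θ ⟨q, hq⟩ := by
    intro t
    obtain ⟨n, hn, htn⟩ := (Set.infinite_coe_iff.1 hθ).exists_gt t
    refine ⟨T + n, by omega, by omega, fun q hq => ?_⟩
    have : g n = θ := hn
    rw [← this]
  obtain ⟨t₀, -, ht₀, ht₀θ⟩ := hinf 0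
  have hinj : InjOn (h t₀) Q := (hemb t₀).1.mono (fun q hq => by
    obtain ⟨i, hi, hqi⟩ := (memQ q).1 hq
    exact ⟨i, (hT i hi).trans ht₀, hqi⟩)
  obtain ⟨π, hπ⟩ := perm_ext Q (h t₀) hinj
  refine ⟨fun i x => N i (π.symm ∘ x), fun i => (c i).map π, ?_, ?_, ?_⟩
  · intro x
    obtain ⟨i, hi⟩ := hcov (π.symm x)
    exact ⟨i, List.mem_map.2 ⟨_, hi, by simp⟩⟩
  · intro i hi
    have h1 : (c i).map π = (c i).map (h t₀) :=
      List.map_congr_left fun q hq => hπ q ((memQ q).2 ⟨i, hi, hq⟩)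
    have h2 := hperm t₀ i ((hT i hi).trans ht₀)
    rw [hb i hi] at h2
    show ((c i).map π).Perm (b i)
    rw [h1]
    exact h2
  · intro t
    obtain ⟨t', htt', hTt', ht'θ⟩ := hinf t
    refine ⟨h t' ∘ π.symm, t', htt', ⟨?_, ?_⟩, ?_, ?_⟩
    · rintro x ⟨i, hi, hx⟩ y ⟨j, hj, hy⟩ hxy
      obtain ⟨x', hx', rfl⟩ := List.mem_map.1 hx
      obtain ⟨y', hy', rfl⟩ := List.mem_map.1 hy
      simp only [Function.comp_apply, Equiv.symm_apply_apply] at hxy
      rw [(hemb t').1 ⟨i, hi.trans htt', hx'⟩ ⟨j, hj.trans htt', hy'⟩ hxy]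
    · intro i x hx
      show M i ((h t' ∘ π.symm) ∘ x) = N i (π.symm ∘ x)
      refine (hemb t').2 i (π.symm ∘ x) fun j => ?_
      obtain ⟨k, hk, hxk⟩ := hx j
      obtain ⟨x', hx', hx''⟩ := List.mem_map.1 hxk
      exact ⟨k, hk.trans htt', by simpa [← hx''] using hx'⟩
    · intro i hi
      rw [List.map_map]
      have : (h t' ∘ π.symm) ∘ π = h t' := by ext; simp
      rw [this]
      exact hperm t' i (hi.trans htt')
    · intro i hi p hp
      have h2 := hperm t' i ((hT i hi).trans hTt')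
      rw [hb i hi] at h2
      obtain ⟨q, hq, hqp⟩ := List.mem_map.1 (h2.mem_iff.2 hp)
      have hqQ : q ∈ Q := (memQ q).2 ⟨i, hi, hq⟩
      have h3 : π q = p := by rw [hπ q hqQ, ht₀θ q hqQ, ← ht'θ q hqQ, hqp]
      show h t' (π.symm p) = p
      rw [← h3, Equiv.symm_apply_apply, h3, hqp]

end Pool.Agent.L7h42.GB
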