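import Pool.Agent.L7h76.GB.Tth

set_option autoImplicit false

/-! Project GB, part TBA: the Baire category argument. -/

namespace Pool.Agent.L7h42.GB

open Set Function
open Pool.Agent.L7h71.GB
open Pool.Agent.L7h76.GB (PP PP_closed pm act_cont)

theorem s_TBA : S_TBA := by
  classical
  intro G X _ _ _ φ hA C hC x hx
  have hP : PolishSpace PP := PP_closed.polishSpace
  have hne : Nonempty PP := ⟨⟨(id, id), fun _ => rfl, fun _ => rfl⟩⟩
  let tr : PP → X := fun p => φ (pm p) • x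
  have htr : Continuous tr :=
    (act_cont hA (Y := Unit) (u := fun _ => x) continuous_const).comp
      ((continuous_const (y := ())).prodMk continuous_id)
  have hcov : ⋃ n, tr ⁻¹' C n = univ := by
    rw [← preimage_iUnion, eq_univ_iff_forall]
    intro p
    exact hx (pm p)
  obtain ⟨n, p₀, hp₀⟩ := nonempty_interior_of_iUnion_of_closed
    (fun n => (hC n).preimage htr) hcov
  obtain ⟨U, hU, hUeq⟩ := isOpen_induced_iff.1 (isOpen_interior (s := tr ⁻¹' C n))
  have hU0 : p₀.1 ∈ U := by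
    have : p₀ ∈ Subtype.val ⁻¹' U := by rw [hUeq]; exact hp₀
    exact this
  obtain ⟨U₁, U₂, hU₁, hU₂, h1, h2, h12⟩ := isOpen_prod_iff.1 hU p₀.1.1 p₀.1.2 hU0
  obtain ⟨I₁, u₁, hu₁, hI₁⟩ := isOpen_pi_iff.1 hU₁ _ h1
  obtain ⟨I₂, u₂, hu₂, hI₂⟩ := isOpen_pi_iff.1 hU₂ _ h2
  -- the finite condition
  have hcond : ∀ p : PP, (∀ z ∈ I₁ ∪ I₂.image p₀.1.2, p.1.1 z = p₀.1.1 z) → tr p ∈ C n := by
    intro p hp
    have h3 : p ∈ interior (tr ⁻¹' C n) := by
      rw [← hUeq]
      refine h12 ⟨hI₁ fun z hz => ?_, hI₂ fun z hz => ?_⟩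
      · show p.1.1 z ∈ u₁ z
        rw [hp z (Finset.mem_union_left _ hz)]
        exact (hu₁ z hz).2
      · show p.1.2 z ∈ u₂ z
        have h4 := hp (p₀.1.2 z) (Finset.mem_union_right _ (Finset.mem_image_of_mem _ hz))
        rw [p₀.2.1 z] at h4
        have h5 := p.2.2 (p₀.1.2 z)
        rw [h4] at h5
        rw [h5]
        exact (hu₂ z hz).2
    have h6 : p ∈ tr ⁻¹' C n := interior_subset h3
    exact h6
  let Z : Finset ℕ := I₁ ∪ I₂.image p₀.1.2
  refine ⟨n, (Z.image p₀.1.1).sup id + 1, pm p₀, fun τ hτ => ?_⟩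
  rw [← mul_smul, ← map_mul]
  let q : Equiv.Perm ℕ := τ * pm p₀
  have h := hcond ⟨(q, q.symm), fun m => q.apply_symm_apply m, fun m => q.symm_apply_apply m⟩
    (fun z hz => by
      show τ (p₀.1.1 z) = p₀.1.1 z
      refine hτ _ (Nat.lt_succ_of_le ?_)
      exact Finset.le_sup (f := id) (Finset.mem_image_of_mem _ hz))
  have h' : φ q • x ∈ C n := by
    have hq : pm ⟨(q, q.symm), fun m => q.apply_symm_apply m, fun m => q.symm_apply_apply m⟩ = q := by
      ext m
      rfl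
    have h7 : tr ⟨(q, q.symm), fun m => q.apply_symm_apply m, fun m => q.symm_apply_apply m⟩ =
      φ q • x := by
      show φ (pm _) • x = _
      rw [hq]
    rw [← h7]
    exact h
  exact h'

end Pool.Agent.L7h42.GB
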